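import Mathlib
import Pool.Agent.Helper383.FM.Final

set_option autoImplicit false

open Set

namespace Pool.Agent.Results.MP_2332c1_an.FractionalEndpoint

open Pool.Agent.Helper383.FM

variable {d : ℕ}

/-- The point of `ℝ^d` with the same coordinates as the lattice point `m`. -/
def toReal (m : Fin d → ℤ) : Fin d → ℝ := fun i => (m i : ℝ)

/-- The closed dilate: all `y` with `(y - x) / r` in the closure of `Ω` if `r > 0`, and `{x}` if
`r = 0`. -/
def dilate (Ω : Set (Fin d → ℝ)) (x : Fin d → ℝ) (r : ℝ) : Set (Fin d → ℝ) :=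
  {y | (r = 0 ∧ y = x) ∨ (0 < r ∧ r⁻¹ • (y - x) ∈ closure Ω)}

/-- The lattice points in the closed dilate. -/
def points (Ω : Set (Fin d → ℝ)) (x : Fin d → ℝ) (r : ℝ) : Set (Fin d → ℤ) :=
  {m | toReal m ∈ dilate Ω x r}

/-- The number of lattice points in the closed dilate. -/
noncomputable def numPoints (Ω : Set (Fin d → ℝ)) (x : Fin d → ℝ) (r : ℝ) : ℕ :=
  (points Ω x r).ncard

/-- The centered discrete fractional maximal function. -/
noncomputable def centeredMax (Ω : Set (Fin d → ℝ)) (β : ℝ) (f : (Fin d → ℤ) → ℝ)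
    (n : Fin d → ℤ) : ℝ :=
  ⨆ r : {r : ℝ // 0 ≤ r},
    1 / (numPoints Ω 0 r : ℝ) ^ (1 - β / d) * ∑' m : points Ω 0 r, |f (n + m)|

/-- The uncentered discrete fractional maximal function. -/
noncomputable def uncenteredMax (Ω : Set (Fin d → ℝ)) (β : ℝ) (f : (Fin d → ℤ) → ℝ)
    (n : Fin d → ℤ) : ℝ :=
  ⨆ p : {p : (Fin d → ℝ) × ℝ // 0 ≤ p.2 ∧ toReal n ∈ dilate Ω p.1 p.2},
    1 / (numPoints Ω p.1.1 p.1.2 : ℝ) ^ (1 - β / d) * ∑' m : points Ω p.1.1 p.1.2, |f m|

/-- The Euclidean norm of the discrete gradient. -/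
noncomputable def gradNorm (g : (Fin d → ℤ) → ℝ) (n : Fin d → ℤ) : ℝ :=
  Real.sqrt (∑ i : Fin d, (g (n + Pi.single i 1) - g n) ^ 2)

/-- The `ℓ^p` norm. -/
noncomputable def ellNorm (p : ℝ) (g : (Fin d → ℤ) → ℝ) : ℝ := (∑' n, |g n| ^ p) ^ (1 / p)

theorem dilate_eq {Ω : Set (Fin d → ℝ)} (h0 : (0 : Fin d → ℝ) ∈ Ω) (x : Fin d → ℝ) {r : ℝ}
    (hr : 0 ≤ r) : dilate Ω x r = kb (closure Ω) x r := by
  ext y
  unfold dilate kb
  simp only [mem_ofPred_eq]
  rcases hr.eq_or_lt with h | h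
  · rw [← h]
    constructor
    · rintro (⟨_, hy⟩ | ⟨h1, _⟩)
      · exact ⟨0, subset_closure h0, by simp [hy]⟩
      · exact absurd h1 (lt_irrefl _)
    · rintro ⟨k, _, hy⟩
      left
      exact ⟨rfl, by simpa using hy⟩
  · constructor
    · rintro (⟨h1, _⟩ | ⟨_, hy⟩)
      · exact absurd h1 h.ne'
      · refine ⟨_, hy, ?_⟩
        rw [smul_inv_smul₀ h.ne']
        simp
    · rintro ⟨k, hk, rfl⟩
      right
      refine ⟨h, ?_⟩
      rw [add_sub_cancel_left, inv_smul_smul₀ h.ne']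
      exact hk

theorem points_eq {Ω : Set (Fin d → ℝ)} (h0 : (0 : Fin d → ℝ) ∈ Ω) (x : Fin d → ℝ) {r : ℝ}
    (hr : 0 ≤ r) : points Ω x r = lat (closure Ω) x r := by
  unfold points lat
  rw [dilate_eq h0 x hr]
  rfl

theorem numPoints_eq {Ω : Set (Fin d → ℝ)} (h0 : (0 : Fin d → ℝ) ∈ Ω) (x : Fin d → ℝ) {r : ℝ}
    (hr : 0 ≤ r) : numPoints Ω x r = cnt (closure Ω) x r := by
  unfold numPoints cnt
  rw [points_eq h0 x hr]

theorem exists_body {Ω : Set (Fin d → ℝ)} (ho : IsOpen Ω)
    (hb : Bornology.IsBounded Ω) (hc : Convex ℝ Ω) (h0 : (0 : Fin d → ℝ) ∈ Ω) :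
    ∃ c0 C0 : ℝ, Body (closure Ω) c0 C0 := by
  obtain ⟨ε, hε, hball⟩ := Metric.isOpen_iff.mp ho 0 h0
  obtain ⟨R, hR⟩ := hb.subset_closedBall 0
  have hcl : closure Ω ⊆ Metric.closedBall 0 R := closure_minimal hR Metric.isClosed_closedBall
  refine ⟨ε / 2, max R (ε / 2), hc.closure, isClosed_closure, by positivity,
    le_max_right _ _, ?_, ?_⟩
  · intro y hy
    apply subset_closure
    apply hball
    rw [Metric.mem_ball, dist_zero_right]
    refine lt_of_le_of_lt ((pi_norm_le_iff_of_nonneg (by positivity : 0 ≤ ε / 2)).mpr hy) ?_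
    linarith
  · intro y hy i
    have h1 := hcl hy
    rw [Metric.mem_closedBall, dist_zero_right] at h1
    exact (norm_le_pi_norm y i).trans (h1.trans (le_max_left _ _))

theorem avg_le {K : Set (Fin d → ℝ)} {c0 C0 : ℝ} (hK : Body K c0 C0) {β : ℝ}
    (hβ : 0 ≤ 1 - β / d) {f : (Fin d → ℤ) → ℝ} (hf : Summable fun n => |f n|) {n : Fin d → ℤ}
    {x : Fin d → ℝ} {r : ℝ} (hr : 0 ≤ r) (hn : toR n ∈ kb K x r) :
    avg K β f x r ≤ ∑' n, |f n| := by
  have hN1 : (1 : ℝ) ≤ cnt K x r := by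
    have h5 : n ∈ lat K x r := hn
    have h6 : 0 < cnt K x r := by
      unfold cnt
      rw [Set.ncard_pos (lat_finite hK _ hr)]
      exact ⟨n, h5⟩
    exact_mod_cast h6
  have h3 : (1 : ℝ) ≤ (cnt K x r : ℝ) ^ (1 - β / d) := Real.one_le_rpow hN1 hβ
  unfold avg
  have h4 : tot K f x r ≤ ∑' n, |f n| := by
    rw [tot_eq hK f x hr]
    exact hf.sum_le_tsum _ (fun _ _ => abs_nonneg _)
  exact (div_le_self (tot_nonneg _ _ _ _) h3).trans h4

theorem result (d : ℕ) (hd : 1 ≤ d) (Ω : Set (Fin d → ℝ)) (hopen : IsOpen Ω)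
    (hbounded : Bornology.IsBounded Ω) (hconvex : Convex ℝ Ω) (hzero : (0 : Fin d → ℝ) ∈ Ω)
    (β α : ℝ) (hβ0 : 0 < β) (hβ1 : β < 1) (hα0 : 0 ≤ α) (hαβ : α ≤ β) :
    ∃ C : ℝ, ∀ f : (Fin d → ℤ) → ℝ, Summable (fun n => |f n|) →
      (Summable (fun n => gradNorm (centeredMax Ω β f) n ^ ((d : ℝ) / (d - β + α))) ∧
        ellNorm ((d : ℝ) / (d - β + α)) (gradNorm (centeredMax Ω β f)) ≤
          C * ellNorm 1 (gradNorm f) ^ (1 - α) * ellNorm 1 f ^ α) ∧
      (Summable (fun n => gradNorm (uncenteredMax Ω β f) n ^ ((d : ℝ) / (d - β + α))) ∧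
        ellNorm ((d : ℝ) / (d - β + α)) (gradNorm (uncenteredMax Ω β f)) ≤
          C * ellNorm 1 (gradNorm f) ^ (1 - α) * ellNorm 1 f ^ α) := by
  obtain ⟨c0, C0, hK⟩ := exists_body hopen hbounded hconvex hzero
  have hd1 : (1 : ℝ) ≤ d := by exact_mod_cast hd
  have hγ : 0 ≤ 1 - β / d := by
    have : β / d < 1 := by rw [div_lt_one (by linarith)]; linarith
    linarith
  have hc := hK.c0pos
  refine ⟨CF d (MeasureTheory.volume (closure Ω)).toReal c0 C0 β α, fun f hf => ?_⟩
  set K := closure Ω with hKd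
  have hnorm : ∀ (q : ℝ) (g : (Fin d → ℤ) → ℝ),
      ellNorm q (gradNorm g) = (∑' n, gr g n ^ q) ^ (1 / q) := by
    intro q g
    unfold ellNorm
    congr 1
    refine tsum_congr fun n => ?_
    rw [show gradNorm g n = gr g n from rfl, abs_of_nonneg (gr_nonneg g n)]
  have hone : ∀ g : (Fin d → ℤ) → ℝ, ellNorm 1 g = ∑' n, |g n| := by
    intro g
    unfold ellNorm
    simp
  have hgrad1 : ellNorm 1 (gradNorm f) = ∑' n, gr f n := by
    rw [hnorm]; simp
  rw [hgrad1, hone f]
  have htoR : ∀ n : Fin d → ℤ, toReal n = toR n := fun n => rfl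
  constructor
  · -- the centered operator
    have hA : Adm K c0 (fun n => {p : (Fin d → ℝ) × ℝ | p.1 = toR n ∧ 0 ≤ p.2}) := by
      refine ⟨fun n p hp => hp.2, ?_, fun n r hr => ⟨rfl, hr⟩, ?_, ?_⟩
      · rintro n ⟨x, r⟩ ⟨h1, h2⟩
        simp only at h1 h2
        rw [h1]
        exact kb_cube hK h2 (fun i => by simpa using mul_nonneg h2 hc.le)
      · rintro n v ⟨x, r⟩ ⟨h1, h2⟩
        simp only at h1 h2
        refine ⟨?_, h2⟩
        simp only
        rw [h1]
        funext i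
        simp [toR]
      · rintro n v hv ⟨x, r⟩ ⟨h1, h2⟩
        simp only at h1 h2
        refine ⟨toR (n + v), ⟨rfl, ?_⟩, ?_⟩
        · simp only; positivity
        · simp only
          intro y hy
          rw [h1] at hy
          have h3 := kb_add hK (u := -toR v) h2 (by positivity : 0 ≤ 1 / c0) hy (by
            intro i
            rw [Pi.neg_apply, abs_neg, div_mul_cancel₀ _ hc.ne']
            have := hv i
            unfold toR
            exact_mod_cast this)
          have h4 : toR n = toR (n + v) + -toR v := by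
            funext i
            simp [toR]
          rw [h4, kb_shift] at h3
          exact h3
    have hM : ∀ n, IsLUB ((fun p => avg K β f p.1 p.2) ''
        {p : (Fin d → ℝ) × ℝ | p.1 = toR n ∧ 0 ≤ p.2}) (centeredMax Ω β f n) := by
      intro n
      have hval : ∀ r : ℝ, 0 ≤ r → 1 / (numPoints Ω 0 r : ℝ) ^ (1 - β / d) *
          ∑' m : points Ω 0 r, |f (n + m)| = avg K β f (toR n) r := by
        intro r hr
        have h1 : toR n = 0 + toR n := by simp
        unfold avg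
        rw [h1, cnt_shift, tot_shift, numPoints_eq hzero 0 hr, ← hKd, one_div_mul_eq_div]
        congr 1
        unfold tot
        rw [points_eq hzero 0 hr]
        refine tsum_congr fun m => ?_
        rw [add_comm]
      have hset : (fun p => avg K β f p.1 p.2) '' {p : (Fin d → ℝ) × ℝ | p.1 = toR n ∧ 0 ≤ p.2} =
          range (fun r : {r : ℝ // 0 ≤ r} => 1 / (numPoints Ω 0 r : ℝ) ^ (1 - β / d) *
            ∑' m : points Ω 0 r, |f (n + m)|) := by
        ext a
        constructor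
        · rintro ⟨⟨x, r⟩, ⟨h1, h2⟩, rfl⟩
          simp only at h1 h2
          refine ⟨⟨r, h2⟩, ?_⟩
          simp only
          rw [hval r h2, h1]
        · rintro ⟨⟨r, hr⟩, rfl⟩
          refine ⟨(toR n, r), ⟨rfl, hr⟩, ?_⟩
          simp only
          rw [hval r hr]
      rw [hset]
      have : Nonempty {r : ℝ // 0 ≤ r} := ⟨⟨0, le_rfl⟩⟩
      apply isLUB_ciSup
      refine ⟨∑' n, |f n|, ?_⟩
      rintro _ ⟨⟨r, hr⟩, rfl⟩
      simp only
      rw [hval r hr]
      exact avg_le (n := n) hK hγ hf hr (kb_cube hK hr (fun i => by simpa using mul_nonneg hr hc.le))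
    have h := main hd hK hA hβ0 hβ1 hf hM hα0 hαβ rfl
    rw [hnorm]
    refine ⟨h.1, h.2.trans (le_of_eq ?_)⟩
    ring
  · -- the uncentered operator
    have hA : Adm K c0 (fun n => {p : (Fin d → ℝ) × ℝ | 0 ≤ p.2 ∧ toR n ∈ kb K p.1 p.2}) := by
      refine ⟨fun n p hp => hp.1, fun n p hp => hp.2, ?_, ?_, ?_⟩
      · intro n r hr
        exact ⟨hr, kb_cube hK hr (fun i => by simpa using mul_nonneg hr hc.le)⟩
      · rintro n v ⟨x, r⟩ ⟨h1, h2⟩
        simp only at h1 h2
        refine ⟨h1, ?_⟩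
        simp only
        have h3 : toR (n + v) = toR n + toR v := by
          funext i
          simp [toR]
        rw [h3, kb_shift]
        exact h2
      · rintro n v hv ⟨x, r⟩ ⟨h1, h2⟩
        simp only at h1 h2
        have hle : r ≤ r + 1 / c0 := by
          have : 0 < 1 / c0 := by positivity
          linarith
        refine ⟨x, ⟨?_, ?_⟩, ?_⟩
        · simp only; positivity
        · simp only
          have h3 := kb_add hK (u := toR v) h1 (by positivity : 0 ≤ 1 / c0) h2 (by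
            intro i
            rw [div_mul_cancel₀ _ hc.ne']
            have := hv i
            unfold toR
            exact_mod_cast this)
          have h4 : toR (n + v) = toR n + toR v := by
            funext i
            simp [toR]
          rw [h4]
          exact h3
        · simp only
          exact kb_mono hK h1 hle
    have hM : ∀ n, IsLUB ((fun p => avg K β f p.1 p.2) ''
        {p : (Fin d → ℝ) × ℝ | 0 ≤ p.2 ∧ toR n ∈ kb K p.1 p.2}) (uncenteredMax Ω β f n) := by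
      intro n
      have hval : ∀ (x : Fin d → ℝ) (r : ℝ), 0 ≤ r →
          1 / (numPoints Ω x r : ℝ) ^ (1 - β / d) * ∑' m : points Ω x r, |f m| =
            avg K β f x r := by
        intro x r hr
        unfold avg tot
        rw [numPoints_eq hzero x hr, ← hKd, one_div_mul_eq_div, points_eq hzero x hr]
      have hset : (fun p => avg K β f p.1 p.2) ''
          {p : (Fin d → ℝ) × ℝ | 0 ≤ p.2 ∧ toR n ∈ kb K p.1 p.2} =
          range (fun p : {p : (Fin d → ℝ) × ℝ // 0 ≤ p.2 ∧ toReal n ∈ dilate Ω p.1 p.2} =>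
            1 / (numPoints Ω p.1.1 p.1.2 : ℝ) ^ (1 - β / d) *
              ∑' m : points Ω p.1.1 p.1.2, |f m|) := by
        ext a
        constructor
        · rintro ⟨⟨x, r⟩, ⟨h1, h2⟩, rfl⟩
          simp only at h1 h2
          refine ⟨⟨(x, r), h1, ?_⟩, ?_⟩
          · simp only
            rw [dilate_eq hzero x h1]
            exact h2
          · simp only
            rw [hval x r h1]
        · rintro ⟨⟨⟨x, r⟩, h1, h2⟩, rfl⟩
          simp only at h1 h2
          rw [dilate_eq hzero x h1] at h2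
          refine ⟨(x, r), ⟨h1, h2⟩, ?_⟩
          simp only
          rw [hval x r h1]
      rw [hset]
      have : Nonempty {p : (Fin d → ℝ) × ℝ // 0 ≤ p.2 ∧ toReal n ∈ dilate Ω p.1 p.2} :=
        ⟨⟨(toReal n, 0), le_rfl, Or.inl ⟨rfl, rfl⟩⟩⟩
      apply isLUB_ciSup
      refine ⟨∑' n, |f n|, ?_⟩
      rintro _ ⟨⟨⟨x, r⟩, h1, h2⟩, rfl⟩
      simp only at h1 h2
      rw [dilate_eq hzero x h1] at h2
      simp only
      rw [hval x r h1]
      exact avg_le hK hγ hf h1 h2
    have h := main hd hK hA hβ0 hβ1 hf hM hα0 hαβ rfl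
    rw [hnorm]
    refine ⟨h.1, h.2.trans (le_of_eq ?_)⟩
    ring

end Pool.Agent.Results.MP_2332c1_an.FractionalEndpoint
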